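import Mathlib
import Pool.Agent.Helper44.LN.Asm

namespace Pool.Agent.Results.MP_b56c98_ag.HighDimensionHilbertFunction

open MvPolynomial

/-- The homogeneous prime ideal of the point of projective space with coordinate vector `p`:
the ideal generated by the forms vanishing at `p`. -/
noncomputable def pointIdeal {n : ℕ} (p : Fin (n + 1) → ℂ) :
    Ideal (MvPolynomial (Fin (n + 1)) ℂ) :=
  Ideal.span {f | (∃ d, f.IsHomogeneous d) ∧ eval p f = 0}

/-- The intersection of the `m`-th powers of the ideals of the points `P i`. -/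
noncomputable def fatIdeal {n r : ℕ} (P : Fin r → Fin (n + 1) → ℂ) (m : ℕ) :
    Ideal (MvPolynomial (Fin (n + 1)) ℂ) :=
  ⨅ i, pointIdeal (P i) ^ m

/-- The Hilbert function of the quotient by `J`: dimension of the space of forms of degree `d`
minus the dimension of the space of forms of degree `d` in `J`. -/
noncomputable def hilb {n : ℕ} (J : Ideal (MvPolynomial (Fin (n + 1)) ℂ)) (d : ℕ) : ℝ :=
  (Module.finrank ℂ (homogeneousSubmodule (Fin (n + 1)) ℂ d) : ℝ) -
    (Module.finrank ℂ (homogeneousSubmodule (Fin (n + 1)) ℂ d ⊓ J.restrictScalars ℂ :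
      Submodule ℂ (MvPolynomial (Fin (n + 1)) ℂ)) : ℝ)

/-- The polynomial `∑ (-c) ^ i / (i! * (d - i * j)!)`, the sum over `0 ≤ i ≤ d / j`. -/
noncomputable def Q (j d : ℕ) (c : ℝ) : ℝ :=
  ∑ i ∈ Finset.range (d / j + 1), (-c) ^ i / ((i.factorial : ℝ) * ((d - i * j).factorial : ℝ))

/-- The alternating sum `∑ (-1) ^ (i + 1) * (r choose i) * (n + d - i * j choose n)` over
`1 ≤ i ≤ d / j`, where `j = d - m + 1`. -/
noncomputable def expected (n r m d : ℕ) : ℝ :=
  ∑ i ∈ Finset.range (d / (d + 1 - m)), (-1 : ℝ) ^ i * (r.choose (i + 1) : ℝ) *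
    ((n + d - (i + 1) * (d + 1 - m)).choose n : ℝ)

/-- The number `n ^ p * sqrt (n * log n)`. -/
noncomputable def width (p n : ℕ) : ℝ := (n : ℝ) ^ p * Real.sqrt (n * Real.log n)

/-- The Hilbert function of `r` general points of multiplicity `m` in projective `n`-space, for
fixed `m`, all large `n`, all `r ≥ 1` and all degrees `d`. In all degrees `d ≤ m` and all degrees
`d ≥ 2 * m` it is given by an explicit formula for ALL `r`; for `d ≥ 2 * m` the formula is
`min ((n + d choose n), r * (n + m - 1 choose n))`. The remaining degrees are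
`m + 1, ..., 2 * m - 1`, where explicit formulas hold outside a window of numbers `r`. -/
theorem result (m : ℕ) (hm : 1 ≤ m) :
    ∃ cs C C' : ℕ → ℝ,
      (∀ d, m + 1 ≤ d → 0 < cs d ∧ Q (d + 1 - m) d (cs d) = 0 ∧
        (∀ c, 0 ≤ c → c < cs d → 0 < Q (d + 1 - m) d c)) ∧
      ∃ n0 : ℕ, ∀ n ≥ n0, ∀ r ≥ 1,
        ∃ G : MvPolynomial (Fin r × Fin (n + 1)) ℂ, G ≠ 0 ∧
          ∀ P : Fin r → Fin (n + 1) → ℂ, eval (fun x => P x.1 x.2) G ≠ 0 →
            (∀ i, P i ≠ 0) ∧
            (∀ d, 2 * m ≤ d → hilb (fatIdeal P m) d =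
              ((min ((n + d).choose n) (r * (n + m - 1).choose n) : ℕ) : ℝ)) ∧
            (∀ d, d < m → hilb (fatIdeal P m) d = ((n + d).choose n : ℝ)) ∧
            hilb (fatIdeal P m) m = ((n + m).choose n : ℝ) -
              (if r ≤ n then ((n + m - r).choose m : ℝ) else 0) ∧
            (∀ d, m + 1 ≤ d → d ≤ 2 * m - 2 →
              ((r : ℝ) ≤ cs d * (n : ℝ) ^ (d + 1 - m) - C d * width (d - m) n →
                hilb (fatIdeal P m) d = expected n r m d ∧
                expected n r m d < ((n + d).choose n : ℝ)) ∧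
              (cs d * (n : ℝ) ^ (d + 1 - m) + C d * width (d - m) n ≤ r →
                hilb (fatIdeal P m) d = ((n + d).choose n : ℝ)) ∧
              (cs d * (n : ℝ) ^ (d + 1 - m) - C d * width (d - m) n ≤ r →
                ((n + d).choose n : ℝ) - C' d * width (d - 1) n ≤ hilb (fatIdeal P m) d)) ∧
            (r * (n + m - 1).choose n + (n + m).choose (n + 1) ^ 2 ≤
                (n + (2 * m - 1)).choose n ∨
              (n + (2 * m - 1)).choose n + 2 * (n + m).choose (n + 1) ^ 2 + 1 ≤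
                r * (n + m - 1).choose n →
              hilb (fatIdeal P m) (2 * m - 1) =
                ((min ((n + (2 * m - 1)).choose n) (r * (n + m - 1).choose n) : ℕ) : ℝ)) := by
  obtain ⟨cs, C, C', h1, n0, h2⟩ := Pool.Agent.Helper44.LN.large2 m hm
  refine ⟨cs, C, C', h1, n0, fun n hn r hr => ?_⟩
  obtain ⟨G, hG, hP⟩ := h2 n hn r hr
  refine ⟨G, hG, fun P h => ?_⟩
  obtain ⟨a1, a2, a3, a4, a5, a6⟩ := hP P h
  exact ⟨a1, a6, a2, a3, a4, a5⟩

end Pool.Agent.Results.MP_b56c98_ag.HighDimensionHilbertFunction
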