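import Mathlib
import Pool.Agent.Helper45.FatMain

namespace Pool.Agent.Results.MP_b56c98_ag.ManyGeneralFatPoints

open MvPolynomial

/-- The homogeneous prime ideal of the point of projective space with coordinate vector `p`:
the ideal generated by the forms vanishing at `p`. -/
noncomputable def pointIdeal {n : ℕ} (p : Fin (n + 1) → ℂ) :
    Ideal (MvPolynomial (Fin (n + 1)) ℂ) :=
  Ideal.span {f | (∃ d, f.IsHomogeneous d) ∧ eval p f = 0}

/-- The intersection of the `m`-th powers of the ideals of the points `P i`. -/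
noncomputable def fatIdeal {n r : ℕ} (P : Fin r → Fin (n + 1) → ℂ) (m : ℕ) :
    Ideal (MvPolynomial (Fin (n + 1)) ℂ) :=
  ⨅ i, pointIdeal (P i) ^ m

/-- The Hilbert function of the quotient by `J`: dimension of the space of forms of degree `d`
minus the dimension of the space of forms of degree `d` in `J`. -/
noncomputable def hilb {n : ℕ} (J : Ideal (MvPolynomial (Fin (n + 1)) ℂ)) (d : ℕ) : ℤ :=
  (Module.finrank ℂ (homogeneousSubmodule (Fin (n + 1)) ℂ d) : ℤ) -
    (Module.finrank ℂ (homogeneousSubmodule (Fin (n + 1)) ℂ d ⊓ J.restrictScalars ℂ :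
      Submodule ℂ (MvPolynomial (Fin (n + 1)) ℂ)) : ℤ)

/-- The Hilbert function, in all degrees `d ≥ m + q - 1`, of `r` general points of multiplicity
`m`, for every `r` up to `C(K, q)` where `K` is the integer part of `(n + 1) / C(m + q - 2, q - 1)`.
For `q = 2` this is the range `d ≥ m + 1` and `r ≤ C(⌊(n + 1) / m⌋, 2)`. -/
theorem result (n m q r : ℕ) (hm : 1 ≤ m) (hq : 1 ≤ q)
    (hr : r ≤ ((n + 1) / (m + q - 2).choose (q - 1)).choose q) :
    ∃ G : MvPolynomial (Fin r × Fin (n + 1)) ℂ, G ≠ 0 ∧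
      ∀ P : Fin r → Fin (n + 1) → ℂ, eval (fun x => P x.1 x.2) G ≠ 0 →
        (∀ i, P i ≠ 0) ∧
        ∀ d, m + q - 1 ≤ d →
          hilb (fatIdeal P m) d = ∑ i ∈ Finset.Icc 1 (d / (d + 1 - m)),
            (-1) ^ (i + 1) * (r.choose i : ℤ) * ((n + d - i * (d + 1 - m)).choose n : ℤ) := by
  obtain ⟨G, hG0, hG⟩ := Pool.Agent.Helper45.exists_generic (k := ℂ) n m q r hm hq hr
  refine ⟨G, hG0, fun P hP => ?_⟩
  obtain ⟨hP0, hP1⟩ := hG P hP
  refine ⟨hP0, fun d hd => ?_⟩
  have hj : q ≤ d + 1 - m := by omega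
  have hd' : m - 1 + (d + 1 - m) = d := by omega
  have h1 := hP1 (d + 1 - m) hj
  rw [Pool.Agent.Helper45.uval_eq_sum n m r d (d + 1 - m) (by omega) hd',
    ← Pool.Agent.Helper45.hilb_eq_finrank_degPart P hP0 hm, hd'] at h1
  rw [← h1]
  unfold hilb
  have hfin : Module.Finite ℂ (homogeneousSubmodule (Fin (n + 1)) ℂ d) := inferInstance
  have hle : Module.finrank ℂ (homogeneousSubmodule (Fin (n + 1)) ℂ d ⊓
      (fatIdeal P m).restrictScalars ℂ : Submodule ℂ (MvPolynomial (Fin (n + 1)) ℂ)) ≤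
      Module.finrank ℂ (homogeneousSubmodule (Fin (n + 1)) ℂ d) :=
    Submodule.finrank_mono inf_le_left
  have e : fatIdeal P m = Pool.Agent.Helper45.fatId P m := rfl
  rw [Nat.cast_sub (by rw [← e]; exact hle), e]

end Pool.Agent.Results.MP_b56c98_ag.ManyGeneralFatPoints
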