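import Mathlib
import Pool.Agent.Helper65.HFL.Sharp

namespace Pool.Agent.Results.MP_b56c98_ag.SharpConstant

open MvPolynomial

/-- The homogeneous prime ideal of the point of projective space with coordinate vector `p`:
the ideal generated by the forms vanishing at `p`. -/
noncomputable def pointIdeal {n : ℕ} (p : Fin (n + 1) → ℂ) :
    Ideal (MvPolynomial (Fin (n + 1)) ℂ) :=
  Ideal.span {f | (∃ d, f.IsHomogeneous d) ∧ eval p f = 0}

/-- The intersection of the `m`-th powers of the ideals of the points `P i`. -/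
noncomputable def fatIdeal {n r : ℕ} (P : Fin r → Fin (n + 1) → ℂ) (m : ℕ) :
    Ideal (MvPolynomial (Fin (n + 1)) ℂ) :=
  ⨅ i, pointIdeal (P i) ^ m

/-- The Hilbert function of the quotient by `J`: dimension of the space of forms of degree `d`
minus the dimension of the space of forms of degree `d` in `J`. -/
noncomputable def hilb {n : ℕ} (J : Ideal (MvPolynomial (Fin (n + 1)) ℂ)) (d : ℕ) : ℝ :=
  (Module.finrank ℂ (homogeneousSubmodule (Fin (n + 1)) ℂ d) : ℝ) -
    (Module.finrank ℂ (homogeneousSubmodule (Fin (n + 1)) ℂ d ⊓ J.restrictScalars ℂ :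
      Submodule ℂ (MvPolynomial (Fin (n + 1)) ℂ)) : ℝ)

/-- The number of forms of degree `d` or the number of conditions, whichever is smaller. -/
noncomputable def bound (n r m d : ℕ) : ℝ :=
  min ((n + d).choose n : ℝ) ((r : ℝ) * ((n + m - 1).choose n : ℝ))

/-- The constant `1 - C(rm - r, m) / C(rm, m)`. -/
noncomputable def kappa (m r : ℕ) : ℝ := 1 - ((r * m - r).choose m : ℝ) / ((r * m).choose m : ℝ)

/-- The number `m C(n + d, n) / C(n + m - 1, n)`. -/
noncomputable def ratio (n m d : ℕ) : ℝ :=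
  (m : ℝ) * ((n + d).choose n : ℝ) / ((n + m - 1).choose n : ℝ)

/-- For every multiplicity `m` and every number `r` of points, `kappa m r` is the largest constant
`c` such that for all `n`, general points of projective `n`-space impose at least `c` times the
expected number of conditions on the forms of every degree; the infimum of these constants is
`1 - 1/e`. -/
theorem result :
    (∀ m r : ℕ, 1 ≤ m → 1 ≤ r →
      (∀ n : ℕ, 1 ≤ n → ∃ G : MvPolynomial (Fin r × Fin (n + 1)) ℂ, G ≠ 0 ∧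
        ∀ P : Fin r → Fin (n + 1) → ℂ, eval (fun x => P x.1 x.2) G ≠ 0 →
          (∀ i, P i ≠ 0) ∧
          (∀ d, kappa m r * bound n r m d ≤ hilb (fatIdeal P m) d) ∧
          ∀ d, m ≤ d → hilb (fatIdeal P m) d = ((n + d).choose n : ℝ) ∨
            ((m : ℝ) + r ≤ ratio n m d ∧
              ((n + d).choose n : ℝ) - hilb (fatIdeal P m) d ≤ ((n + d).choose n : ℝ) *
                ∏ k ∈ Finset.range m, (1 - (r : ℝ) / (ratio n m d - k)))) ∧
      (∃ n d : ℕ, 1 ≤ n ∧ 0 < bound n r m d ∧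
        ∀ P : Fin r → Fin (n + 1) → ℂ, (∀ i, P i ≠ 0) →
          hilb (fatIdeal P m) d ≤ kappa m r * bound n r m d) ∧
      1 - Real.exp (-1) ≤ 1 - (1 - 1 / (m : ℝ)) ^ m ∧
      1 - (1 - 1 / (m : ℝ)) ^ m ≤ kappa m r) ∧
    ∀ ε > 0, ∃ m r : ℕ, 1 ≤ m ∧ 1 ≤ r ∧ kappa m r ≤ 1 - Real.exp (-1) + ε := by
  refine ⟨fun m r hm hr => ⟨fun n hn => ?_, ?_, ?_, Pool.Agent.Helper65.HFL.kap_ge hm hr⟩,
    fun ε hε => ?_⟩
  · obtain ⟨G, hG0, hG⟩ := Pool.Agent.Helper65.HFL.sharp n m r hn hm hr
    refine ⟨G, hG0, fun P hP => ?_⟩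
    obtain ⟨h1, h2, h3⟩ := hG P hP
    exact ⟨h1, h3, h2⟩
  · obtain ⟨n, d, h1, h2, h3⟩ := Pool.Agent.Helper65.HFL.kap_opt m r hm hr
    exact ⟨n, d, h1, h2, h3⟩
  · have h := Pool.Agent.Helper65.HFL.pow_le_exp hm
    linarith
  · exact Pool.Agent.Helper65.HFL.kap_inf hε

end Pool.Agent.Results.MP_b56c98_ag.SharpConstant
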