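import Mathlib
import Pool.Agent.Helper98.UAH.Final2

namespace Pool.Agent.Results.MP_b56c98_ag.UniformPostulation

open MvPolynomial

/-- The homogeneous prime ideal of the point of projective space with coordinate vector `p`:
the ideal generated by the forms vanishing at `p`. -/
noncomputable def pointIdeal {n : ℕ} (p : Fin (n + 1) → ℂ) :
    Ideal (MvPolynomial (Fin (n + 1)) ℂ) :=
  Ideal.span {f | (∃ d, f.IsHomogeneous d) ∧ eval p f = 0}

/-- The intersection of the powers `pointIdeal (P i) ^ k i`. -/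
noncomputable def fatIdeal {n r : ℕ} (P : Fin r → Fin (n + 1) → ℂ) (k : Fin r → ℕ) :
    Ideal (MvPolynomial (Fin (n + 1)) ℂ) :=
  ⨅ i, pointIdeal (P i) ^ k i

/-- The Hilbert function of the quotient by `J`: dimension of the space of forms of degree `d`
minus the dimension of the space of forms of degree `d` in `J`. -/
noncomputable def hilb {n : ℕ} (J : Ideal (MvPolynomial (Fin (n + 1)) ℂ)) (d : ℕ) : ℤ :=
  (Module.finrank ℂ (homogeneousSubmodule (Fin (n + 1)) ℂ d) : ℤ) -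
    (Module.finrank ℂ (homogeneousSubmodule (Fin (n + 1)) ℂ d ⊓ J.restrictScalars ℂ :
      Submodule ℂ (MvPolynomial (Fin (n + 1)) ℂ)) : ℤ)

/-- The sum `1 + 1/2 + ... + 1/(n-1)`. -/
noncomputable def har (n : ℕ) : ℝ := ∑ j ∈ Finset.range (n - 1), 1 / ((j : ℝ) + 1)

/-- The bound for the degree: `4m-3` in dimension more than `27^m`, `64m` in dimension more
than `2m`, `512m(1+m/n)^4` in the other dimensions at least `5`, and
`(2nm)^(3 + 1 + 1/2 + ... + 1/(n-1))` in dimension at most `4`. -/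
noncomputable def degBound (n m : ℕ) : ℝ :=
  if 27 ^ m < n then 4 * m - 3
  else if 2 * m < n then 64 * m
  else if 5 ≤ n then 512 * m * (1 + (m : ℝ) / n) ^ 4
  else (2 * (n : ℝ) * m) ^ (3 + har n)

/-- The width of the window in degree `d`. -/
noncomputable def window (n m d : ℕ) : ℝ :=
  if (m ≤ n + 1 ∧ 2 * m ≤ d + 2) ∨ 2 * n ^ 2 + 5 * n * m + m ^ 2 ≤ 2 * n * (d + 1) then
    min (2 * ((n + m).choose (n + 1) : ℝ) ^ 2 + 1)
      ((2 * (n : ℝ) * m) ^ (((n : ℝ) - 1) * (2 + har n)))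
  else (2 * (n : ℝ) * m) ^ (((n : ℝ) - 1) * (2 + har n))

/-- General fat points of multiplicities at most `m` have the expected Hilbert function in every
degree `d`, except possibly when `d < degBound n m` and the number of forms and the number of
conditions differ by less than `window n m d`. -/
theorem result (n m r : ℕ) (hn : 1 ≤ n) (hm : 1 ≤ m) (k : Fin r → ℕ)
    (hk : ∀ i, 1 ≤ k i ∧ k i ≤ m) :
    ∃ G : MvPolynomial (Fin r × Fin (n + 1)) ℂ, G ≠ 0 ∧
      ∀ P : Fin r → Fin (n + 1) → ℂ, eval (fun x => P x.1 x.2) G ≠ 0 →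
        (∀ i, P i ≠ 0) ∧
        ∀ d : ℕ,
          ¬ ((d : ℝ) < degBound n m ∧
            |((n + d).choose n : ℝ) - ∑ i, ((n + k i - 1).choose n : ℝ)| < window n m d) →
          hilb (fatIdeal P k) d =
            min ((n + d).choose n : ℤ) (∑ i, ((n + k i - 1).choose n : ℤ)) := by
  obtain ⟨D0, hD0⟩ : ∃ D0 : ℝ, D0 = (2 * (n : ℝ) * m) ^ (3 + har n) := ⟨_, rfl⟩
  obtain ⟨W0, hW0⟩ : ∃ W0 : ℝ, W0 = (2 * (n : ℝ) * m) ^ (((n : ℝ) - 1) * (2 + har n)) := ⟨_, rfl⟩
  have hD : (2 * (n : ℝ) * m) ^ (3 + har n) ≤ (⌈D0⌉₊ : ℝ) := hD0 ▸ Nat.le_ceil _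
  have hW : (2 * (n : ℝ) * m) ^ (((n : ℝ) - 1) * (2 + har n)) ≤ (⌈W0⌉₊ : ℝ) :=
    hW0 ▸ Nat.le_ceil _
  obtain ⟨h1, h2⟩ := Pool.Agent.Helper46.EAH.ap_all ℂ n m hn hm ⌈W0⌉₊ hW
  obtain ⟨G, hG0, hG⟩ := Pool.Agent.Helper98.UAH.uniform2 (F := ℂ) n m r hn hm k
    (fun i => (hk i).1) (fun i => (hk i).2) ⌈D0⌉₊ ⌈W0⌉₊
    (Pool.Agent.Helper46.EAH.ex_all ℂ n m hn hm _ hD) h1 h2
  refine ⟨G, hG0, fun P hP => ?_⟩
  obtain ⟨hP0, hP1⟩ := hG P hP
  refine ⟨fun i h0 => hP0 i (by rw [h0]; rfl), fun d hd => ?_⟩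
  rw [not_and_or, not_lt, not_lt] at hd
  have hsum : ∑ i, Pool.Agent.Helper46.EAH.N n (k i) = ∑ i, (n + k i - 1).choose n := by
    refine Finset.sum_congr rfl fun i _ => ?_
    have := (hk i).1
    unfold Pool.Agent.Helper46.EAH.N
    rw [if_neg (by omega)]
  have hT : Pool.Agent.Helper46.EAH.N n (d + 1) = (n + d).choose n :=
    Pool.Agent.Helper46.EAH.N_succ n d
  have hA : Pool.Agent.Helper46.EAH.N (n + 1) m = (n + m).choose (n + 1) := by
    unfold Pool.Agent.Helper46.EAH.N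
    rw [if_neg (by omega)]
    congr 1
    omega
  have key := hP1 d ?_
  · rw [hsum, hT] at key
    have e : hilb (fatIdeal P k) d
        = Pool.Agent.Helper46.EAH.hilbert (Pool.Agent.Helper46.EAH.fatI P k) d := rfl
    rw [e, key]
    push_cast
    rfl
  · unfold Pool.Agent.Helper98.UAH.Good2 Pool.Agent.Helper98.UAH.Wf
    rw [hsum, hT, hA]
    obtain ⟨s, hs⟩ : ∃ s : ℕ, s = ∑ i, (n + k i - 1).choose n := ⟨_, rfl⟩
    have hsR : ∑ i, ((n + k i - 1).choose n : ℝ) = (s : ℝ) := by rw [hs]; push_cast; rfl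
    rw [← hs]
    rw [hsR] at hd
    obtain ⟨T, hTT⟩ : ∃ T : ℕ, T = (n + d).choose n := ⟨_, rfl⟩
    rw [← hTT] at hd ⊢
    have habs : ∀ w : ℝ, w ≤ |(T : ℝ) - s| → T + ⌈w⌉₊ ≤ s ∨ s + ⌈w⌉₊ ≤ T := by
      intro w hw
      rcases Nat.le_total T s with hle | hle
      · left
        have h3 : ⌈w⌉₊ ≤ s - T := by
          apply Nat.ceil_le.2
          refine hw.trans ?_
          have : (T : ℝ) ≤ s := by exact_mod_cast hle
          rw [Nat.cast_sub hle, abs_sub_comm, abs_of_nonneg (by linarith)]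
        omega
      · right
        have h3 : ⌈w⌉₊ ≤ T - s := by
          apply Nat.ceil_le.2
          refine hw.trans ?_
          have : (s : ℝ) ≤ T := by exact_mod_cast hle
          rw [Nat.cast_sub hle, abs_of_nonneg (by linarith)]
        omega
    rcases hd with hd | hd
    · unfold degBound at hd
      split_ifs at hd with hc1 hc2 hc3
      · refine Or.inr (Or.inr (Or.inr (Or.inr (Or.inl ⟨hc1, ?_⟩))))
        have h3 : (4 * (m:ℝ)) ≤ d + 3 := by linarith
        exact_mod_cast h3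
      · refine Or.inr (Or.inr (Or.inr (Or.inl ⟨hc2, ?_⟩)))
        exact_mod_cast hd
      · exact Or.inr (Or.inr (Or.inr (Or.inr (Or.inr (Or.inl ⟨hc3, by omega, hd⟩)))))
      · rw [← hD0] at hd
        exact Or.inl (Nat.ceil_le.2 hd)
    · unfold window at hd
      have hold : W0 ≤ |(T : ℝ) - s| → T + ⌈W0⌉₊ ≤ s ∨ s + ⌈W0⌉₊ ≤ T := habs W0
      rw [← hW0] at hd
      split_ifs at hd with hc
      · rcases min_le_iff.1 hd with hd | hd
        · refine Or.inr (Or.inr (Or.inr (Or.inr (Or.inr (Or.inr ⟨hc, ?_⟩)))))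
          have h3 := habs _ hd
          have h4 : ⌈2 * ((n + m).choose (n + 1) : ℝ) ^ 2 + 1⌉₊ =
              2 * ((n + m).choose (n + 1) * (n + m).choose (n + 1)) + 1 := by
            rw [show 2 * ((n + m).choose (n + 1) : ℝ) ^ 2 + 1 =
              ((2 * ((n + m).choose (n + 1) * (n + m).choose (n + 1)) + 1 : ℕ) : ℝ) by
                push_cast; ring]
            exact Nat.ceil_natCast _
          rw [h4] at h3
          omega
        · rcases hold hd with h3 | h3
          · exact Or.inr (Or.inl h3)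
          · exact Or.inr (Or.inr (Or.inl h3))
      · rcases hold hd with h3 | h3
        · exact Or.inr (Or.inl h3)
        · exact Or.inr (Or.inr (Or.inl h3))

end Pool.Agent.Results.MP_b56c98_ag.UniformPostulation
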